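import Pool.Agent.Helper66.GP.Z4

open Pool.Agent.Helper66.SC Pool.Agent.Helper66.GP

/-- There is a countable transitive model `N` of ZF and of countable choice for sets of reals, in
which every set of reals is Lebesgue measurable and `GP(all)` fails. -/
theorem Pool.Agent.Results.MP_d59a59_lc.MeasurableNotGoldstern.result :
    ∃ N : Set ZFSet.{1}, N.Countable ∧ IsZF N ∅ ∧ ACwR N ∧
      (∀ S ∈ N, (∀ y ∈ S, y ⊆ ZFSet.omega) → Measb N S) ∧ NotGP N :=
  goal
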